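import Mathlib
import Pool.Agent.H47.PM.Fin

/-!
# The number of distinct permanents of sign matrices: `log r_n` has the order `n log n`

Let `r_n` be the number of different values of the permanent on the `n × n` matrices with entries `1`
and `-1`. We prove `r_n ≥ n ^ (n / 6400)` for all large `n`. As `r_n ≤ 2 n! + 1`, the logarithm of `r_n` has
the exact order `n log n`.

## The proof

Let column `i` of the base matrix have `-1` in its first `λ_i` rows, where `λ_i` is weakly increasing and
`λ_i + h ≤ n`. In the last `h` rows we put `a_l ≤ h` entries `-1` into some special columns `l ∈ L`.

* For every board `B` and odd `M` the permanent of the matrix with `-1` on `B` is, modulo `M`,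
  `(-2)^n ∑_{x < M} (-1)^x I_B(x)`, `I_B(x)` being the number of the injective maps of the columns to
  rows and `x` additional objects such that the rows are chosen in `B`; this follows from
  `(-2)^k ∑_{x < M} (-1)^x x (x - 1) ⋯ (x - k + 1) ≡ k!`. As the first `λ_i` rows are nested sets,
  `I_B(x) = ∑_C N(a, C) ∏_{i ∉ C} (x - v_i + #{c ∈ C : c < i})`, where `C` is the set of the columns whose
  image is one of the last `h` rows, `N(a, C)` is a number which depends only on the `a_c`, `c ∈ C`,
  `N(a, {c}) = a_c`, and `v_i = i - λ_i`.
* Suppose that each special column `l` has a prime `p > h` such that modulo `p ^ (E + 1)` the terms with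
  `|C| ≥ 2` and those with `C = {c}`, `c < l`, vanish, but not the one with `C = {l}`. Then the
  `(h + 1) ^ |L|` permanents are different.
* The `v_i` are chosen weakly increasing; the value `y` is taken `m_y ≥ 1` times. Multiples of the primes
  `p` of a set `Q` of primes between `√P` and `P`, `∑_{p ∈ Q} 1/p ≥ 1/8`, have small multiplicities among
  the negative values (the multiples of `p²` multiplicity one), the same holds for the values `≡ 1` modulo
  `p` among the large values, all other values have the multiplicity about `n / P⁴` there. The special
  columns are those with `v = p + 1`, about `n / (48 p)` for each `p ∈ Q`. For the special columns with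
  `v = p + 1` the number of the roots `x` of `∏_{i ≠ l} (x - v_i + [l < i])` that are divisible by `p`
  decreases by one when we pass to the next one, while all other residue classes modulo `p`
  contain many more roots; in the class of `0` the class of `0` modulo `p²` contains
  fewer roots than the others, and its roots are consecutive multiples of `p²`. This gives the exact
  power of `p` that divides the alternating sum.
* With `P` about `n^(1/8)` and `h = √P` there are at least `n / 400` special columns.

## Authors

helper10 (BRD, PADB), helper45 (ARI), helper46 (PADC, NST), helper47 (the idea, CNT and the assembly),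
helper83 (PRM), helper94 (LST, SIEV), helper96 (CNI, TRI).
-/

set_option autoImplicit false

namespace Pool.Agent.Results.MP_596cf1_co.GrowthOrder

/-- the number `r_n` of the different values of the permanent on the `n × n` matrices with entries `1`
and `-1` -/
noncomputable def numPermanents (n : ℕ) : ℕ :=
  Set.ncard {p : ℤ | ∃ A : Matrix (Fin n) (Fin n) ℤ,
    (∀ i j, A i j = 1 ∨ A i j = -1) ∧ A.permanent = p}

/-- For all large `n` there are at least `n ^ (n / 6400)` different permanents of `n × n` sign matrices, and
the logarithm of their number has the exact order `n log n`. -/
theorem result :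
    (∀ᶠ n : ℕ in Filter.atTop, (n : ℝ) ^ ((n : ℝ) / 6400) ≤ (numPermanents n : ℝ)) ∧
    (fun n : ℕ => Real.log (numPermanents n)) =Θ[Filter.atTop]
      (fun n : ℕ => (n : ℝ) * Real.log n) := by
  refine ⟨?_, Pool.Agent.H47.PM.Fin.theta⟩
  obtain ⟨N, hN⟩ := Pool.Agent.H47.PM.Fin.lower
  exact Filter.eventually_atTop.2 ⟨N, fun n hn => hN n hn⟩

end Pool.Agent.Results.MP_596cf1_co.GrowthOrder
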